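import Pool.Agent.Q323.GEC.Main

/-!
# Absolutely homogeneous edge-coloured graphs with a countable palette

Such a graph is countable or has at least continuum many vertices.  Hence the statement in question
implies the continuum hypothesis, so (by Cohen's theorem) it is not a theorem of ZFC.

Proof.  There is no infinite monochromatic set, since a maximal one could be mapped onto itself
minus a point.  Let the vertex set be uncountable and let `B` be a countable set that realizes all
colour types over its finite subsets, and `x` a vertex outside `B`.  For each finite subset `A` of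
`B` there are `u, v` in `B` of the same type over `A` as `x` with `κ(x,u) ≠ κ(x,v)`, since otherwise
`B` would contain an infinite monochromatic sequence.  Hence one finds a binary tree of finite
partial morphisms whose branches give continuum many different images of `x`.
-/

set_option autoImplicit false

namespace Pool.Agent.Results.MP_0b7070_lc.CountablePalette

open Cardinal Pool.Agent.Q323.GEC

/-- **An absolutely homogeneous GEC with a countable palette is countable or has size at least
`2^ℵ₀`; hence the statement in Q1 implies the continuum hypothesis.** -/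
theorem result :
    (∀ (V C : Type) (e : C) (κ : V → V → C), IsGEC e κ → AbsHom κ → #(palette κ) ≤ ℵ₀ →
      #V ≤ ℵ₀ ∨ 𝔠 ≤ #V) ∧
    ((∀ α β : Cardinal.{0}, ℵ₀ ≤ α → α < β → β < 2 ^ α →
      ∃ (V C : Type) (e : C) (κ : V → V → C), IsGEC e κ ∧ AbsHom κ ∧ #(palette κ) = α ∧ #V = β) →
      (𝔠 : Cardinal.{0}) = ℵ₁) := by
  have main : ∀ (V C : Type) (e : C) (κ : V → V → C), IsGEC e κ → AbsHom κ →
      #(palette κ) ≤ ℵ₀ → #V ≤ ℵ₀ ∨ 𝔠 ≤ #V := by
    intro V C e κ h1 h2 hp
    by_cases hV : Countable V
    · exact Or.inl (Cardinal.mk_le_aleph0_iff.2 hV)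
    · exact Or.inr (continuum_le h1 h2 (Cardinal.le_aleph0_iff_set_countable.1 hp) hV)
  refine ⟨main, fun hS => ?_⟩
  by_contra hne
  have hlt : (ℵ₁ : Cardinal.{0}) < 𝔠 := lt_of_le_of_ne Cardinal.aleph_one_le_continuum (Ne.symm hne)
  have h01 : (ℵ₀ : Cardinal.{0}) < ℵ₁ := Cardinal.aleph0_lt_aleph_one
  obtain ⟨V, C, e, κ, h1, h2, hp, hV⟩ := hS ℵ₀ ℵ₁ le_rfl h01
    (by rw [Cardinal.two_power_aleph0]; exact hlt)
  rcases main V C e κ h1 h2 hp.le with h | h
  · rw [hV] at h
    exact absurd h01 (not_lt.2 h)
  · rw [hV] at h
    exact absurd hlt (not_lt.2 h)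

end Pool.Agent.Results.MP_0b7070_lc.CountablePalette
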